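import Pool.Agent.V11203.SG.Union

set_option autoImplicit false

namespace Pool.Agent.Results.MP_080bf7_an.SubgaussianIff

open MeasureTheory

/-- The character `γ_n(t) = exp (2 π i (∑ t_k n_k) / m)` of `G = (ℤ/m)^ℕ` attached to the finitely
supported sequence `n` (`ZMod.stdAddChar j = exp (2 π i j / m)`). -/
noncomputable def char (m : ℕ) [NeZero m] (n : ℕ →₀ ZMod m) (t : ℕ → ZMod m) : ℂ :=
  ZMod.stdAddChar (∑ k ∈ n.support, t k * n k)

/-- The normalised Haar measure of the compact group `(ℤ/m)^ℕ` (`⊤` is the whole group, to which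
`addHaarMeasure` gives mass one). -/
noncomputable def haar (m : ℕ) [NeZero m] : Measure (ℕ → ZMod m) :=
  Measure.addHaarMeasure ⊤

/-- The `ψ₂` norm `inf {c > 0 : ∫ exp (|f|² / c²) ≤ e}`. -/
noncomputable def psi2Norm (m : ℕ) [NeZero m] (f : (ℕ → ZMod m) → ℂ) : ℝ :=
  sInf {c : ℝ | 0 < c ∧
    ∫⁻ t, ENNReal.ofReal (Real.exp (‖f t‖ ^ 2 / c ^ 2)) ∂(haar m) ≤ ENNReal.ofReal (Real.exp 1)}

/-- `Λ` is subgaussian: for some constant `C`, every linear combination of finitely many
characters of `Λ` has `ψ₂` norm at most `C` times the `ℓ²` norm of its coefficients. -/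
def Subgaussian (m : ℕ) [NeZero m] (Λ : Set (ℕ →₀ ZMod m)) : Prop :=
  ∃ C : ℝ, ∀ (A : Finset (ℕ →₀ ZMod m)) (a : (ℕ →₀ ZMod m) → ℂ), (A : Set (ℕ →₀ ZMod m)) ⊆ Λ →
    psi2Norm m (fun t => ∑ n ∈ A, a n * char m n t) ≤ C * Real.sqrt (∑ n ∈ A, ‖a n‖ ^ 2)

/-- `Λ` is quasi-independent: a relation `∑_{λ ∈ A} ξ_λ λ = 0` with `A ⊆ Λ` finite and
`ξ_λ ∈ {-1, 0, 1}` has all `ξ_λ = 0`. -/
def QuasiIndependent (m : ℕ) (Λ : Set (ℕ →₀ ZMod m)) : Prop :=
  ∀ A : Finset (ℕ →₀ ZMod m), (A : Set (ℕ →₀ ZMod m)) ⊆ Λ → ∀ ξ : (ℕ →₀ ZMod m) → ℤ,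
    (∀ x ∈ A, ξ x = -1 ∨ ξ x = 0 ∨ ξ x = 1) → ∑ x ∈ A, ξ x • x = 0 → ∀ x ∈ A, ξ x = 0

instance (m : ℕ) [NeZero m] : IsProbabilityMeasure (haar m) := by
  refine ⟨?_⟩
  have := Measure.addHaarMeasure_self (K₀ := (⊤ : TopologicalSpace.PositiveCompacts (ℕ → ZMod m)))
  simpa [haar] using this

instance (m : ℕ) [NeZero m] : (haar m).IsAddHaarMeasure := by
  unfold haar
  infer_instance

theorem char_add (m : ℕ) [NeZero m] (n n' : ℕ →₀ ZMod m) (t : ℕ → ZMod m) :
    char m (n + n') t = char m n t * char m n' t := by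
  classical
  unfold char
  rw [← AddChar.map_add_eq_mul]
  congr 1
  have h1 : ∀ v : ℕ →₀ ZMod m, ∀ s : Finset ℕ, v.support ⊆ s →
      ∑ k ∈ v.support, t k * v k = ∑ k ∈ s, t k * v k := by
    intro v s hs
    apply Finset.sum_subset hs
    intro k _ hk
    rw [Finsupp.notMem_support_iff.mp hk, mul_zero]
  rw [h1 (n + n') (n.support ∪ n'.support) Finsupp.support_add,
    h1 n (n.support ∪ n'.support) Finset.subset_union_left,
    h1 n' (n.support ∪ n'.support) Finset.subset_union_right, ← Finset.sum_add_distrib]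
  apply Finset.sum_congr rfl
  intro k _
  rw [Finsupp.add_apply, mul_add]

theorem char_add' (m : ℕ) [NeZero m] (n : ℕ →₀ ZMod m) (t s : ℕ → ZMod m) :
    char m n (t + s) = char m n t * char m n s := by
  unfold char
  rw [← AddChar.map_add_eq_mul]
  congr 1
  rw [← Finset.sum_add_distrib]
  apply Finset.sum_congr rfl
  intro k _
  rw [Pi.add_apply, add_mul]

theorem charSystem (m : ℕ) [NeZero m] : V11203.SG.CharSystem (haar m) (char m) where
  meas := by
    intro n
    unfold char
    have h1 : Measurable (ZMod.stdAddChar : ZMod m → ℂ) := measurable_from_top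
    have h2 : Measurable (fun t : ℕ → ZMod m => ∑ k ∈ n.support, t k * n k) := by
      apply Finset.measurable_sum
      intro k _
      have h3 : Measurable (fun z : ZMod m => z * n k) := measurable_from_top
      exact h3.comp (measurable_pi_apply k)
    exact h1.comp h2
  add := char_add m
  norm := by
    intro n t
    unfold char
    rw [ZMod.stdAddChar_apply]
    exact Circle.norm_coe _
  int := by
    intro n hn
    classical
    obtain ⟨k, hk⟩ : ∃ k, n k ≠ 0 := by
      by_contra hcon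
      push Not at hcon
      exact hn (Finsupp.ext hcon)
    set e : ℕ → ZMod m := Pi.single k 1 with he
    have h1 : char m n e ≠ 1 := by
      unfold char
      have h2 : ∑ j ∈ n.support, e j * n j = n k := by
        rw [Finset.sum_eq_single k]
        · rw [he, Pi.single_eq_same, one_mul]
        · intro j _ hj
          rw [he, Pi.single_eq_of_ne hj, zero_mul]
        · intro hk'
          rw [Finsupp.notMem_support_iff.mp hk', mul_zero]
      rw [h2]
      intro h3
      apply hk
      have h4 : (ZMod.stdAddChar (n k) : ℂ) = ZMod.stdAddChar (0 : ZMod m) := by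
        rw [h3, AddChar.map_zero_eq_one]
      exact ZMod.injective_stdAddChar h4
    have h2 : ∫ t, char m n (t + e) ∂(haar m) = ∫ t, char m n t ∂(haar m) :=
      integral_add_right_eq_self (μ := haar m) (fun t => char m n t) e
    simp_rw [char_add'] at h2
    rw [integral_mul_const] at h2
    have h3 : (∫ t, char m n t ∂(haar m)) * (char m n e - 1) = 0 := by
      rw [mul_sub, h2, mul_one, sub_self]
    rcases mul_eq_zero.mp h3 with h4 | h4
    · exact h4
    · exact absurd (sub_eq_zero.mp h4) h1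

/-- For every `m ≥ 1` (in particular `m = 4`), a set `Λ` of nontrivial characters of `(ℤ/m)^ℕ` is
subgaussian if and only if it is a finite union of quasi-independent sets. -/
theorem result (m : ℕ) [NeZero m] (Λ : Set (ℕ →₀ ZMod m)) (h0 : (0 : ℕ →₀ ZMod m) ∉ Λ) :
    Subgaussian m Λ ↔
      ∃ (k : ℕ) (Q : Fin k → Set (ℕ →₀ ZMod m)),
        (∀ i, QuasiIndependent m (Q i)) ∧ Λ = ⋃ i, Q i := by
  classical
  exact V11203.SG.main (charSystem m) m (Nat.pos_of_ne_zero (NeZero.ne m)) Λ h0 (fun x _ => by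
    ext k
    simp)

end Pool.Agent.Results.MP_080bf7_an.SubgaussianIff
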